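import Pool.Agent.H77.EA.Targets
import Pool.Agent.H3.AM.Basic

/-!
# Equivariant Alperin–McKay (MP_657073_al): modules B4, B5, B6

Compatibility of the modular central characters with restriction to normal subgroups, with
conjugation and with twisting.
-/

open scoped Classical ComplexConjugate

namespace Pool.Agent.H19.EA

open AMc

theorem b4 (hE6 : T_E6) (hBL : T_BL) : T_B4 := by
  intro F _ π hπ Γ _ _ N U hNU hn χ hχ θ hθ hov z hz
  -- the lift
  let y : Γ → integralClosure ℤ ℂ := fun g => if g ∈ N then Function.invFun π (z.coeff g) else 0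
  have hy : ∀ u ∈ U, ∀ g, y (u * g * u⁻¹) = y g := by
    intro u hu g
    show (if u * g * u⁻¹ ∈ N then Function.invFun π (z.coeff (u * g * u⁻¹)) else 0) =
      if g ∈ N then Function.invFun π (z.coeff g) else 0
    rw [hz.2 u hu g]
    have h1 := nor_iff hn hu g
    simp only [h1]
  have hyl : ∀ g, π (y g) = z.coeff g := by
    intro g
    show π (if g ∈ N then Function.invFun π (z.coeff g) else 0) = z.coeff g
    by_cases hg : g ∈ N
    · rw [if_pos hg]
      exact Function.invFun_eq (hπ (z.coeff g))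
    · rw [if_neg hg, hz.1 g hg, map_zero]
  have h1 := (hBL F π hπ Γ U χ hχ z hz.2 y hy (fun g _ => hyl g)).2
  have h2 := (hBL F π hπ Γ N θ hθ z (fun n hn' g => hz.2 n (hNU hn') g) y
    (fun n hn' g => hy n (hNU hn') g) (fun g _ => hyl g)).2
  have h3 := hE6 Γ N U hNU hn χ hχ θ hθ hov (fun g => (y g : ℂ))
    (by
      intro g hg
      show (((if g ∈ N then Function.invFun π (z.coeff g) else 0 : integralClosure ℤ ℂ)) : ℂ) = 0
      rw [if_neg hg]; rfl)
    (by
      intro u hu g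
      show ((y (u * g * u⁻¹) : integralClosure ℤ ℂ) : ℂ) = y g
      rw [hy u hu g])
  rw [h1, h2, h3]

theorem b5 : T_B5 := by
  intro F _ π Γ _ _ θ u z
  unfold lam
  have h1 : cj u θ 1 = θ 1 := by
    unfold cj
    congr 1
    group
  rw [h1]
  congr 2
  refine Fintype.sum_equiv (MulAut.conj u).toEquiv _ _ fun g => ?_
  have h2 : (MulAut.conj u).toEquiv g = u * g * u⁻¹ := by simp [MulAut.conj_apply]
  rw [h2, coeff_cjA]
  have h3 : u⁻¹ * (u * g * u⁻¹) * u⁻¹⁻¹ = g := by group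
  rw [h3]
  rfl

theorem b6 (hBL : T_BL) (hS8 : T_S8) : T_B6 := by
  intro F _ π hπ Γ _ _ Q _ _ s μ N θ hθ z hz
  let y : Γ → integralClosure ℤ ℂ := fun g => Function.invFun π (z.coeff g)
  have hy : ∀ u ∈ N, ∀ g, y (u * g * u⁻¹) = y g := by
    intro u hu g
    show Function.invFun π (z.coeff (u * g * u⁻¹)) = Function.invFun π (z.coeff g)
    rw [hz.2 u hu g]
  have hyl : ∀ g, π (y g) = z.coeff g := fun g => Function.invFun_eq (hπ (z.coeff g))
  let y' : Γ → integralClosure ℤ ℂ := fun g => ⟨(μ (s g) : ℂ), mu_integral μ (s g)⟩ * y g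
  have h1 := (hBL F π hπ Γ N (tw s μ θ) (hS8 Γ Q s μ N θ hθ) z hz.2 y hy (fun g _ => hyl g)).2
  have hz' : twA π s μ z ∈ ZA F N N := twA_mem π s μ hz
  have h2 := (hBL F π hπ Γ N θ hθ (twA π s μ z) hz'.2 y'
    (by
      intro n hn g
      show (⟨(μ (s (n * g * n⁻¹)) : ℂ), mu_integral μ (s (n * g * n⁻¹))⟩ : integralClosure ℤ ℂ) *
        y (n * g * n⁻¹) = ⟨(μ (s g) : ℂ), mu_integral μ (s g)⟩ * y g
      rw [hy n hn g]
      congr 1
      apply Subtype.ext
      show ((μ (s (n * g * n⁻¹)) : ℂˣ) : ℂ) = μ (s g)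
      rw [s_conj])
    (by
      intro g _
      show π ((⟨(μ (s g) : ℂ), mu_integral μ (s g)⟩ : integralClosure ℤ ℂ) * y g) = _
      rw [map_mul, hyl g, coeff_twA, rd_mk π (mu_integral μ (s g))])).2
  rw [h1, h2]
  have h3 : tw s μ θ 1 = θ 1 := by
    unfold tw
    rw [map_one, map_one, Units.val_one, one_mul]
  rw [h3]
  congr 2
  refine Finset.sum_congr rfl fun g _ => ?_
  show ((y g : integralClosure ℤ ℂ) : ℂ) * ((μ (s g) : ℂ) * θ g) =
    (((⟨(μ (s g) : ℂ), mu_integral μ (s g)⟩ : integralClosure ℤ ℂ) * y g :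
      integralClosure ℤ ℂ) : ℂ) * θ g
  have h4 : (((⟨(μ (s g) : ℂ), mu_integral μ (s g)⟩ : integralClosure ℤ ℂ) * y g :
      integralClosure ℤ ℂ) : ℂ) = (μ (s g) : ℂ) * (y g : ℂ) := rfl
  rw [h4]
  ring

end Pool.Agent.H19.EA
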