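import Pool.Agent.H77.EA.Targets
import Pool.Agent.H3.AM.Basic

/-!
# Equivariant Alperin–McKay (MP_657073_al): module KX

The sets of the statement in the ambient group.
-/

open scoped Classical ComplexConjugate

namespace Pool.Agent.H19.EA

open AMc AMe

theorem kx (hK1 : T_K1) (hK2 : T_K2) (hB9 : T_B9) : T_KX := by
  intro F _ π hπ ℓ _ _ N Γ _ _ _ _ j hj χ hχ D
  obtain ⟨hv, hirr, hex, -⟩ := hK1 N Γ j hj
  have hχe : extj j χ ∈ IrrS j.range := (hirr χ).1 hχ
  have hblk : ∀ χ' ∈ Irr N,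
      (SameBlock (RingHom.ker π) χ χ' ↔ Blk π j.range (extj j χ) (extj j χ')) := by
    intro χ' hχ'
    have h1 := (hK2 N Γ j hj (RingHom.ker π) ℓ χ D).2.2.1 N (MonoidHom.id N)
      Function.injective_id χ'
    rw [MonoidHom.comp_id] at h1
    have h2 := (hB9 F π hπ ℓ Γ j.range _ hχe).1 (extj j χ') ((hirr χ').1 hχ')
    exact h1.trans h2
  have hidx : (D.map j).relIndex j.range = D.index := by
    rw [MonoidHom.range_eq_map, Subgroup.relIndex_map_map_of_injective D ⊤ hj,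
      Subgroup.relIndex_top_right]
  have hone : ∀ χ' : N → ℂ, extj j χ' 1 = χ' 1 := by
    intro χ'
    have h := hv χ' 1
    rwa [map_one] at h
  have hout : ∀ (χ' : N → ℂ) (g : Γ), g ∉ j.range → extj j χ' g = 0 := by
    intro χ' g hg
    unfold extj
    rw [dif_neg]
    rintro ⟨n, hn⟩
    exact hg ⟨n, hn⟩
  refine ⟨?_, ?_, hblk, ?_⟩
  · intro χ'
    constructor
    · rintro ⟨h1, h2, d, h3, h4⟩
      refine ⟨(hirr χ').1 h1, (hblk χ' h1).1 h2, d, ?_, ?_⟩
      · rw [hone]; exact h3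
      · rw [hidx]; exact h4
    · rintro ⟨h1, h2, d, h3, h4⟩
      have h1' : χ' ∈ Irr N := (hirr χ').2 h1
      refine ⟨h1', (hblk χ' h1').2 h2, d, ?_, ?_⟩
      · rw [← hone χ']; exact h3
      · rw [← hidx]; exact h4
  · rintro θ ⟨h1, -, -⟩
    obtain ⟨ψ, -, hψ⟩ := hex θ h1
    exact ⟨ψ, hψ⟩
  · intro γ hγ χ'
    constructor
    · intro h x y hxy
      have h1 := congrFun h (j x)
      unfold cj at h1
      rw [← hxy, hv, hv] at h1
      exact h1
    · intro h
      funext g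
      unfold cj
      by_cases hg : g ∈ j.range
      · obtain ⟨x, rfl⟩ := hg
        obtain ⟨y, hy⟩ : γ * j x * γ⁻¹ ∈ j.range := (hγ (j x)).2 ⟨x, rfl⟩
        rw [← hy, hv, hv]
        exact h x y hy
      · rw [hout χ' g hg, hout χ' _ (fun h2 => hg ((hγ g).1 h2))]

end Pool.Agent.H19.EA
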