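import Pool.Agent.H77.EA.Targets
import Pool.Agent.H3.AM.Basic

/-!
# Equivariant Alperin–McKay (MP_657073_al): module UD

Brauer correspondence and covering of blocks.
-/

open scoped Classical ComplexConjugate

namespace Pool.Agent.H19.EA

open AMc AMe

/-- the set of `X`-conjugates of `P` is stable under `X` -/
theorem conjs_stable' {Γ : Type} [Group Γ] (X P : Subgroup Γ) :
    ∀ u ∈ X, ∀ D ∈ conjs X P, D.map (MulAut.conj u).toMonoidHom ∈ conjs X P := by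
  rintro u hu D ⟨v, hv, rfl⟩
  refine ⟨u * v, X.mul_mem hu hv, ?_⟩
  rw [Subgroup.map_map]
  congr 1
  ext g
  simp only [MonoidHom.comp_apply, MulEquiv.coe_toMonoidHom, MulAut.conj_apply]
  group

theorem SD_mono' {Γ : Type} [Group Γ] [Fintype Γ] {ℓ : ℕ} {N : Subgroup Γ}
    {𝒟 𝒟' : Set (Subgroup Γ)} (h : 𝒟 ⊆ 𝒟') {x : Γ} (hx : x ∈ SD ℓ N 𝒟) : x ∈ SD ℓ N 𝒟' :=
  ⟨hx.1, fun R h1 h2 h3 => by
    obtain ⟨D, hD, hR⟩ := hx.2 R h1 h2 h3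
    exact ⟨D, h hD, hR⟩⟩

theorem ud (hCV : T_CV) (hST : T_ST) (hE1 : T_E1) (hB1 : T_B1) (hB4 : T_B4) (hC4 : T_C4)
    (hD2 : T_D2) (hD6 : T_D6) : T_UD := by
  intro F _ π hπ ℓ _ _ Γ _ _ X K P hKX hn θ hθ hdef hsta ψ hψ hcor
  set N := Subgroup.normalizer (P : Set Γ) with hN
  have hKX' : K ⊓ N ≤ X ⊓ N := inf_le_inf_right N hKX
  have hn' : ∀ u ∈ X ⊓ N, ∀ g ∈ K ⊓ N, u * g * u⁻¹ ∈ K ⊓ N := by
    rintro u ⟨hu, hu'⟩ g ⟨hg, hg'⟩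
    exact ⟨hn u hu g hg, N.mul_mem (N.mul_mem hu' hg') (N.inv_mem hu')⟩
  -- (1)
  have hsta' : Sta π (X ⊓ N) (K ⊓ N) ψ := by
    rintro u ⟨hu, hu'⟩
    have h1 := ((hST F π hπ ℓ Γ K P).1 θ hθ hdef).2 ψ hψ hcor
    exact (h1.2.2 u hu' (nor_iff hn hu)).1 (hsta u hu)
  refine ⟨hsta', ?_⟩
  intro χ hχ ξ hξ hc
  constructor
  · rintro ⟨θ₁, hθ₁, hov, hblk⟩
    obtain ⟨ψ₁, hψ₁, hov'⟩ := hE1 Γ (K ⊓ N) (X ⊓ N) hKX' ξ hξ
    refine ⟨ψ₁, hψ₁, hov', ?_⟩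
    have hchain : ∀ z ∈ ZA F K X, lam π ψ₁ (br P z) = lam π θ z := by
      intro z hz
      have h1 := hB4 F π hπ Γ (K ⊓ N) (X ⊓ N) hKX' hn' ξ hξ ψ₁ hψ₁ hov' (br P z)
        (hD2 F Γ K X P z hz)
      have h2 := hc z (ZA_mono hKX le_rfl hz)
      have h3 := hB4 F π hπ Γ K X hKX hn χ hχ θ₁ hθ₁ hov z hz
      have h4 := hblk z (ZA_mono le_rfl hKX hz)
      rw [← h1, ← h2, h3, h4]
    apply hCV F π hπ ℓ Γ (X ⊓ N) (K ⊓ N) hKX' hn' ψ hψ ψ₁ hψ₁ hsta'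
    refine hD6 F ℓ Γ K X P hKX hn hdef.1 hdef.2.1 (lam π ψ₁) (lam π ψ)
      (hB1 F π hπ Γ _ ψ₁ hψ₁) (hB1 F π hπ Γ _ ψ hψ) ?_ ?_
    · intro z hz
      rw [hchain z hz]
      exact hcor z (ZA_mono le_rfl hKX hz)
    · obtain ⟨x, hx, hne, hPx, hind⟩ := hdef.2.2.1
      have hxSD : x ∈ SD ℓ K (conjs X P) := by
        refine SD_mono' ?_ (mem_SD_of_sylow hdef.1 hdef.2.1 hx hPx hind)
        rintro D ⟨u, hu, rfl⟩
        exact ⟨u, hKX hu, rfl⟩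
      obtain ⟨w, hw, hw', hw0⟩ := hC4 F ℓ Γ K X hKX hn (conjs X P) (conjs_stable' X P)
        (lam π θ) (hB1 F π hπ Γ _ θ hθ) (csum F (cls K x)) (csum_cls_mem_self hx)
        (by
          intro g hg
          rw [coeff_csum] at hg
          have hg' : g ∈ cls K x := by
            by_contra h
            rw [if_neg h] at hg
            exact hg rfl
          obtain ⟨u, hu, rfl⟩ := mem_cls.1 hg'
          exact SD_conj (nor_iff (nor_self K) hu)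
            (fun D hD => conjs_stable' X P u (hKX hu) D hD) hxSD)
        hne
      refine ⟨w, hw, hw', ?_⟩
      rw [hchain w hw]
      exact hw0
  · rintro ⟨ψ₁, hψ₁, hov', hblk⟩
    obtain ⟨θ₁, hθ₁, hov⟩ := hE1 Γ K X hKX χ hχ
    refine ⟨θ₁, hθ₁, hov, ?_⟩
    apply hCV F π hπ ℓ Γ X K hKX hn θ hθ θ₁ hθ₁ hsta
    intro z hz
    have h1 := hB4 F π hπ Γ K X hKX hn χ hχ θ₁ hθ₁ hov z hz
    have h2 := hc z (ZA_mono hKX le_rfl hz)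
    have h3 := hB4 F π hπ Γ (K ⊓ N) (X ⊓ N) hKX' hn' ξ hξ ψ₁ hψ₁ hov' (br P z)
      (hD2 F Γ K X P z hz)
    have h4 := hblk (br P z) (ZA_mono le_rfl hKX' (hD2 F Γ K X P z hz))
    have h5 := hcor z (ZA_mono le_rfl hKX hz)
    rw [← h1, h2, h3, h4, ← h5]

end Pool.Agent.H19.EA
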